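import Pool.Agent.W758.AHC.Stm

set_option autoImplicit false

namespace Pool.Agent.W414.AHC

open Pool.Agent.W758.AHC

theorem cb_step (k j : ℕ) (h : 3 * (Nat.centralBinom k * Nat.centralBinom j) ≤
    2 * Nat.centralBinom (k + j)) :
    3 * (Nat.centralBinom k * Nat.centralBinom (j + 1)) ≤ 2 * Nat.centralBinom (k + (j + 1)) := by
  have h1 := Nat.succ_mul_centralBinom_succ j
  have h2 := Nat.succ_mul_centralBinom_succ (k + j)
  have e : k + (j + 1) = (k + j) + 1 := by ring
  rw [e]
  set x := Nat.centralBinom k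
  set y := Nat.centralBinom j
  set y' := Nat.centralBinom (j + 1)
  set z := Nat.centralBinom (k + j)
  set z' := Nat.centralBinom (k + j + 1)
  have hpos : 0 < (j + 1) * (k + j + 1) := by positivity
  refine Nat.le_of_mul_le_mul_left ?_ hpos
  calc (j + 1) * (k + j + 1) * (3 * (x * y'))
      = (k + j + 1) * (3 * x) * ((j + 1) * y') := by ring
    _ = (k + j + 1) * (3 * x) * (2 * (2 * j + 1) * y) := by rw [h1]
    _ = (k + j + 1) * (2 * (2 * j + 1)) * (3 * (x * y)) := by ring
    _ ≤ (k + j + 1) * (2 * (2 * j + 1)) * (2 * z) := Nat.mul_le_mul_left _ h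
    _ = ((k + j + 1) * (2 * j + 1)) * (4 * z) := by ring
    _ ≤ ((j + 1) * (2 * (k + j) + 1)) * (4 * z) := by
        apply Nat.mul_le_mul_right
        nlinarith
    _ = (j + 1) * 2 * (2 * (2 * (k + j) + 1) * z) := by ring
    _ = (j + 1) * 2 * ((k + j + 1) * z') := by rw [← h2]
    _ = (j + 1) * (k + j + 1) * (2 * z') := by ring

theorem cb_base (k : ℕ) (hk : 1 ≤ k) :
    3 * (Nat.centralBinom k * Nat.centralBinom 1) ≤ 2 * Nat.centralBinom (k + 1) := by
  have h2 := Nat.succ_mul_centralBinom_succ k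
  have h1 : Nat.centralBinom 1 = 2 := by decide
  rw [h1]
  set z := Nat.centralBinom k
  set z' := Nat.centralBinom (k + 1)
  have hpos : 0 < k + 1 := by positivity
  refine Nat.le_of_mul_le_mul_left ?_ hpos
  calc (k + 1) * (3 * (z * 2)) = (3 * (k + 1)) * (2 * z) := by ring
    _ ≤ (2 * (2 * k + 1)) * (2 * z) := by
        apply Nat.mul_le_mul_right
        omega
    _ = 2 * (2 * (2 * k + 1) * z) := by ring
    _ = 2 * ((k + 1) * z') := by rw [← h2]
    _ = (k + 1) * (2 * z') := by ring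

theorem cb_main (k : ℕ) (hk : 1 ≤ k) (j : ℕ) (hj : 1 ≤ j) :
    3 * (Nat.centralBinom k * Nat.centralBinom j) ≤ 2 * Nat.centralBinom (k + j) := by
  induction j, hj using Nat.le_induction with
  | base => exact cb_base k hk
  | succ j _ ih => exact cb_step k j ih

theorem M0_even (k : ℕ) : M0 (2 * k) = Nat.centralBinom k := by
  unfold M0
  rw [Nat.mul_div_cancel_left k (by norm_num), Nat.centralBinom_eq_two_mul_choose]

theorem M0_succ_odd (k : ℕ) : M0 (2 * k + 1 + 1) = 2 * M0 (2 * k + 1) := by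
  unfold M0
  have e1 : (2 * k + 1 + 1) / 2 = k + 1 := by omega
  have e2 : (2 * k + 1) / 2 = k := by omega
  rw [e1, e2, Nat.choose_succ_succ (2 * k + 1) k]
  have h : (2 * k + 1).choose (k + 1) = (2 * k + 1).choose k := by
    have := Nat.choose_symm_half k
    simpa using this
  rw [h]; ring

theorem M0_succ_le (a : ℕ) : M0 (a + 1) ≤ 2 * M0 a := by
  unfold M0
  rcases Nat.even_or_odd' a with ⟨k, rfl | rfl⟩
  · have e2 : (2 * k + 1) / 2 = k := by omega
    have e3 : (2 * k) / 2 = k := by omega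
    rw [e2, e3]
    cases k with
    | zero => simp
    | succ k =>
      rw [Nat.choose_succ_succ]
      have h := Nat.choose_le_middle k (2 * (k + 1))
      have e4 : (2 * (k + 1)) / 2 = k + 1 := by omega
      rw [e4] at h
      have : (2 * (k + 1)).choose (Nat.succ k) = (2 * (k + 1)).choose (k + 1) := rfl
      omega
  · exact (M0_succ_odd k).le

theorem even_even (k j : ℕ) (hk : 1 ≤ k) (hj : 1 ≤ j) :
    3 * (M0 (2 * k) * M0 (2 * j)) ≤ 2 * M0 (2 * k + 2 * j) := by
  rw [← mul_add, M0_even, M0_even, M0_even]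
  exact cb_main k hk j hj

theorem any_even (a j : ℕ) (ha : 1 ≤ a) (hj : 1 ≤ j) :
    3 * (M0 a * M0 (2 * j)) ≤ 2 * M0 (a + 2 * j) := by
  rcases Nat.even_or_odd' a with ⟨k, rfl | rfl⟩
  · exact even_even k j (by omega) hj
  · have h := even_even (k + 1) j (by omega) hj
    have e1 : 2 * (k + 1) = 2 * k + 1 + 1 := by ring
    have e2 : 2 * (k + 1) + 2 * j = (2 * k + 1 + 2 * j) + 1 := by ring
    rw [e2, e1, M0_succ_odd] at h
    have h2 := M0_succ_le (2 * k + 1 + 2 * j)
    nlinarith

theorem bin : S_BIN := by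
  intro a b ha hb
  rcases Nat.even_or_odd' b with ⟨j, rfl | rfl⟩
  · exact any_even a j ha (by omega)
  · have h := any_even a (j + 1) ha (by omega)
    have e1 : 2 * (j + 1) = 2 * j + 1 + 1 := by ring
    have e2 : a + 2 * (j + 1) = (a + (2 * j + 1)) + 1 := by ring
    rw [e2, e1, M0_succ_odd] at h
    have h2 := M0_succ_le (a + (2 * j + 1))
    nlinarith

end Pool.Agent.W414.AHC
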